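import Mathlib
import Pool.Agent.H26.C1Main

/-!
# MP_df5e61_ag: ACC for minimal log discrepancies, torus actions of complexity one

Let `Γ` be a DCC subset of `[0, 1]`.  The minimal log discrepancies `mld (x, X, Δ)` of log canonical
pairs, where `X` is a normal affine variety of dimension `n + 1` with an action of an
`n`-dimensional torus of complexity one and with rational quotient, `x` is a torus-fixed point of
klt type and `Δ` is a torus-invariant boundary with coefficients in `Γ`, satisfy the ascending chain
condition.
-/

universe u

open Pool.Agent.H26

/-- ACC for minimal log discrepancies at the fixed points of rational varieties with a torus action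
of complexity one, of every dimension, with torus-invariant boundary whose coefficients lie in a
DCC set. -/
theorem Pool.Agent.Results.MP_df5e61_ag.ComplexityOne.result
    (k : Type u) [Field k] [IsAlgClosed k] [CharZero k] (n : ℕ) (Γ : Set ℝ)
    (hΓ : Γ ⊆ Set.Icc 0 1) (hDCC : DCC Γ) : ACC (complexityOneMlds k n Γ) :=
  c1_acc k n Γ hΓ hDCC
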