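import Mathlib
import Pool.Agent.H50.Hyp.Main

/-!
# MP_df5e61_ag: ACC for minimal log discrepancies, nondegenerate hypersurfaces in toric varieties

Let `Γ` be a DCC subset of `[0, 1]`.  Let `X` be an affine toric variety of dimension `n + 1`, `x`
its torus-fixed point, `H` a normal hypersurface through `x` and `Δ` a divisor on `X`, the sum of a
torus-invariant divisor and of multiples of hypersurfaces which together with `H` form a Newton
nondegenerate system, with coefficients in `Γ` and with `K_X + Δ + H` `ℝ`-Cartier.  Then the
minimal log discrepancies `mld (x, H, Diff_H Δ) ≥ 0` of those germs which are of klt type satisfy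
the ascending chain condition.
-/

universe u

open Pool.Agent.H26 Pool.Agent.H50.Hyp

/-- ACC for minimal log discrepancies of the log canonical germs of klt type on nondegenerate
hypersurfaces in toric varieties, in every dimension, with coefficients in a DCC set. -/
theorem Pool.Agent.Results.MP_df5e61_ag.NondegenerateHypersurfaces.result
    (k : Type u) [Field k] [IsAlgClosed k] [CharZero k] (n : ℕ) (Γ : Set ℝ)
    (hΓ : Γ ⊆ Set.Icc 0 1) (hDCC : DCC Γ) : ACC (hypersurfaceMlds k n Γ) :=
  hypersurface_acc k n Γ hΓ hDCC
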