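import Mathlib
import Pool.Agent.H32.ArrACC

/-!
# MP_df5e61_ag: ACC for minimal log discrepancies of finite quotients of hyperplane arrangements

Let `Γ ⊆ [0, ∞)` be a DCC set.  We consider germs `x ∈ (X, Δ)` of `n`-dimensional log pairs which
are quotients by an arbitrary finite group `H` (not necessarily abelian, and possibly containing
reflections) of a smooth germ `y ∈ Y` with boundary `Δ_Y = ∑ d_j (g_j = 0)`, where `d_j ∈ Γ`, `H`
acts on the parameters `t_1, …, t_n` at `y` by linear substitutions and the `g_j` are linear forms
in the `t_l` (with coefficients in the ground field).  Here `K_Y + Δ_Y` is the pull back of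
`K_X + Δ` near `y`.

The theorem: all the minimal log discrepancies `mld_x (X, Δ) ≥ 0` of such germs, for all finite
groups and all arrangements of hyperplanes, satisfy the ascending chain condition, in every
dimension `n`.

No assumption is made on the divisors computing the minimal log discrepancy.  The proof shows that
every divisor `E` over `X` with centre `x` is dominated by an orbifold weighted blow-up: there are
a generator `σ` of the (cyclic) inertia group of an extension `F` of `E` to the function field of
`Y`, with eigenvalues `ζ ^ {w_l}` on linear coordinates `s_l`, `w_l = F (s_l)`, such that the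
orbifold weighted blow-up with weights `(w_1, …, w_n) / r` has log discrepancy at most `a (E, X, Δ)`.
-/

universe u v

open Pool.Agent.H26 Pool.H32

/-- ACC for the minimal log discrepancies of quotients by finite groups of smooth germs with
arrangement boundaries, in every dimension and with coefficients in an arbitrary DCC set. -/
theorem Pool.Agent.Results.MP_df5e61_ag.QuotientArrangements.result
    (n : ℕ) (Γ : Set ℝ) (hΓ : ∀ γ ∈ Γ, 0 ≤ γ) (hDCC : DCC Γ) :
    ACC (ArrMlds.{u, v} n Γ) :=
  arr_acc n hΓ hDCC
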