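import Mathlib
import Pool.Agent.H50.TQ.Final

/-!
# MP_df5e61_ag: ACC for minimal log discrepancies, toric quotient singularities

Let `Γ` be a DCC subset of `[0, 1]`.  Let `X = Y / H` be the quotient of an affine toric variety `Y`
of dimension `n` by a finite group `H` which fixes the torus-fixed point `y`, such that each element
of `H` normalises a torus for which `Y` is toric (the torus may depend on the element, `H` is
arbitrary).  Let `Δ` be a boundary on `X` such that the pull back of `K_X + Δ` is `K_Y + Δ_Y`, where
`Δ_Y` is invariant under these tori, with coefficients in `Γ`.  Then the minimal log discrepancies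
`mld (x, X, Δ)` of all such germs of dimension `n` satisfy the ascending chain condition.
-/

universe u

open Pool.Agent.H26 Pool.Agent.H50.TQ

/-- ACC for minimal log discrepancies of toric quotient singularities, in every dimension, with
invariant boundary with coefficients in a DCC set. -/
theorem Pool.Agent.Results.MP_df5e61_ag.ToricQuotients.result
    (n : ℕ) (Γ : Set ℝ) (hΓ : Γ ⊆ Set.Icc 0 1) (hDCC : DCC Γ) :
    ACC (toricQuotientMlds.{u} n Γ) :=
  toricQuotient_acc n Γ hΓ hDCC
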